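import Pool.Agent.R539.SD.Defs

/-!
# MP_77e9aa_lc: statements of the independent pieces
-/

set_option autoImplicit false

namespace Pool.Agent.R539.SD

open Pool.Agent.NPC Pool.Agent.R544

/-- The vertices `(a, b, 0), ..., (a, b, m)`. -/
def chn (a b m : ℕ) : Set Vx := {v | ∃ t : ℕ, t ≤ m ∧ v = (a, b, t)}

/-- All the short directed cycles of `lowDg n r φ` meet all windows of `g` consecutive colours. -/
structure KeyHit (n r : ℕ) (φ : N3) (k g : ℕ) (C : Vx → ℕ) : Prop where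
  hub3 : ∀ s, 1 ≤ s → s ≤ r → ∀ i < n, Hit k g C (chn 4 s (r + 1) ∪ {(3, i, s)})
  hub2 : ∀ s, 1 ≤ s → s ≤ r → ∀ q < 4 * φ.length, Hit k g C (chn 4 s (r + 1) ∪ {(2, q, s)})
  link0 : ∀ i, i + 1 < n → Hit k g C (chn 3 i (r + 1) ∪ {(3, i + 1, 0)})
  link1 : ∀ i, i + 1 < n → Hit k g C (chn 3 i (r + 1) ∪ {(3, i + 1, r + 1)})
  frame : ∀ q < 4 * φ.length, Hit k g C (chn 3 (n - 1) (r + 1) ∪ {(2, q, 0)})
  con0 : ∀ j < φ.length, Hit k g C (chn 2 (4 * j) r ∪ {(0, (tr φ j).1, 0), (1, j, 0)})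
  con1 : ∀ j < φ.length, Hit k g C (chn 2 (4 * j + 1) r ∪ {(0, (tr φ j).2.1, 0), (1, j, 1)})
  con2 : ∀ j < φ.length, Hit k g C (chn 2 (4 * j + 2) r ∪ {(0, (tr φ j).2.2, 0), (1, j, 2)})
  con3 : ∀ j < φ.length, Hit k g C (chn 2 (4 * j + 3) r ∪ {(1, j, 0), (1, j, 1), (1, j, 2)})

/-- (K) The listed sets are closed walks. -/
def SKEY : Prop := ∀ (n r : ℕ) (φ : N3) (k d : ℕ) (c : Vx → ZMod k), 1 ≤ n → 1 ≤ d → d ≤ k →
  IsCol (lowDg n r φ) k d c → KeyHit n r φ k (k - d) (fun v => (c v).val)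

/-- (C) Every cycle contains one of the listed sets. -/
def SCYC : Prop := ∀ (n r : ℕ) (φ : N3) (k g : ℕ) (C : Vx → ℕ), 1 ≤ n → KeyHit n r φ k g C →
  ∀ Y : Set Vx, Cyc (lowDg n r φ) Y → Hit k g C Y

/-- (L) No loops. -/
def SLOOP : Prop := ∀ (n r : ℕ) (φ : N3), Loopless (lowDg n r φ)

/-- (M) Colouring from a not-all-equal assignment, `k = (r+2)n+1`, `g = n`. -/
def SCMP : Prop := ∀ (n r : ℕ) (φ : N3), 1 ≤ n → NAE3 φ →
  ∃ C : Vx → ℕ, (∀ v, C v < (r + 2) * n + 1) ∧ KeyHit n r φ ((r + 2) * n + 1) n C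

/-- (S) Assignment from a colouring with `k / g > r + 2 + 1 / (n + 1)`. -/
def SSND : Prop := ∀ (n r : ℕ) (φ : N3) (k g : ℕ) (C : Vx → ℕ), 1 ≤ n → (∀ v, C v < k) →
  ((n + 1) * (r + 2) + 1) * g < (n + 1) * k → KeyHit n r φ k g C → NAE3 φ

end Pool.Agent.R539.SD
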