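import Mathlib
import Pool.Agent.R544.Nae3

/-!
# The star dichromatic number: definitions

Digraphs are finite lists of arcs; the vertices are triples of natural numbers (isolated vertices
are irrelevant).
-/

set_option autoImplicit false

namespace Pool.Agent.R539.SD

open Pool.Agent.NPC Pool.Agent.R544

/-- Vertices: triples of natural numbers. -/
abbrev Vx : Type := ℕ × ℕ × ℕ

/-- A finite digraph, given by the list of its arcs. -/
abbrev Dg : Type := List (Vx × Vx)

/-- The set `X` induces an acyclic subdigraph: there is no directed closed walk in it. -/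
def Acyc (E : Dg) (X : Set Vx) : Prop :=
  ∀ v : Vx, ¬ Relation.TransGen (fun a b : Vx => (a, b) ∈ E ∧ a ∈ X ∧ b ∈ X) v v

/-- Acyclic `(k, d)`-colourings: the colour classes of `d` consecutive colours
`i, i + 1, ..., i + d - 1` in `ℤ/k` together induce an acyclic subdigraph. -/
def IsCol (E : Dg) (k d : ℕ) (c : Vx → ZMod k) : Prop :=
  ∀ i : ZMod k, Acyc E {v | ∃ t : ℕ, t < d ∧ c v = i + (t : ZMod k)}

/-- The star dichromatic number: the infimum of `k / d` over all acyclic `(k, d)`-colourings. -/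
noncomputable def starNum (E : Dg) : ℝ :=
  sInf {x : ℝ | ∃ k d : ℕ, 1 ≤ d ∧ d ≤ k ∧ x = (k : ℝ) / (d : ℝ) ∧ ∃ c : Vx → ZMod k, IsCol E k d c}

/-- No loops. -/
def Loopless (E : Dg) : Prop := ∀ e ∈ E, e.1 ≠ e.2

/-- The problem `STAR_p`: the digraph has no loops and star dichromatic number at most `p`. -/
def Star (p : ℝ) (E : Dg) : Prop := Loopless E ∧ starNum E ≤ p

/-- For colours and window starts below `k`: the colour `a` lies in the window
`y, y + 1, ..., y + g - 1` modulo `k`. -/
def W (k g y a : ℕ) : Prop := (y ≤ a ∧ a < y + g) ∨ a + k < y + g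

/-- The set `Y` of vertices meets every window of `g` consecutive colours. -/
def Hit (k g : ℕ) (C : Vx → ℕ) (Y : Set Vx) : Prop := ∀ y < k, ∃ v ∈ Y, W k g y (C v)

/-- The set `Y` is nonempty and every vertex of it has a successor and a predecessor in it. -/
def Cyc (E : Dg) (Y : Set Vx) : Prop :=
  Y.Nonempty ∧ (∀ v ∈ Y, ∃ u ∈ Y, (v, u) ∈ E) ∧ ∀ v ∈ Y, ∃ u ∈ Y, (u, v) ∈ E

/-- (B1) In an acyclic `(k, d)`-colouring every directed closed walk meets all windows of `k - d`
consecutive colours. -/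
def SHIT : Prop := ∀ (E : Dg) (k d : ℕ) (c : Vx → ZMod k), 1 ≤ d → d ≤ k → IsCol E k d c →
  ∀ (Y : Set Vx) (v : Vx), Relation.TransGen (fun a b : Vx => (a, b) ∈ E ∧ a ∈ Y ∧ b ∈ Y) v v →
    Hit k (k - d) (fun v => (c v).val) Y

/-- (B2) Conversely. -/
def SCOL : Prop := ∀ (E : Dg) (k d : ℕ) (C : Vx → ℕ), 1 ≤ d → d ≤ k → (∀ v, C v < k) →
  (∀ Y : Set Vx, Cyc E Y → Hit k (k - d) C Y) → IsCol E k d (fun v => (C v : ZMod k))

/-- (B3) A loopless digraph whose number is less than `q` has a colouring with `k / d < q`. -/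
def SINF : Prop := ∀ (E : Dg), Loopless E → ∀ q : ℝ, starNum E < q →
  ∃ k d : ℕ, 1 ≤ d ∧ d ≤ k ∧ (k : ℝ) < q * d ∧ ∃ c : Vx → ZMod k, IsCol E k d c

/-- The case `p ≥ 3`. -/
def SHI : Prop := ∀ p : ℝ, 3 ≤ p → NPHardP (Star p)

/-- The case `2 < p < 3`. -/
def SMID : Prop := ∀ p : ℝ, 2 < p → p < 3 → NPHardP (Star p)

/-! ## The digraph for `p < 2` -/

/-- The hubs of level `s`: a path with `r + 2` vertices. -/
def hubArcs (r s : ℕ) : Dg := (List.range (r + 1)).map fun t => ((4, s, t), (4, s, t + 1))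

/-- The arcs from the hubs of level `s` to the vertex `w` and back. -/
def lev (r s : ℕ) (w : Vx) : Dg := [((4, s, r + 1), w), (w, (4, s, 0))]

/-- The chain `(3, i, 0), ..., (3, i, r + 1)` of the pair number `i`. -/
def pairArcs (r i : ℕ) : Dg :=
  ((List.range (r + 1)).map fun s => ((3, i, s), (3, i, s + 1))) ++
    (List.range r).flatMap fun s => lev r (s + 1) (3, i, s + 1)

/-- Both ends of the pair number `i + 1` complete the chain number `i`. -/
def linkArcs (r i : ℕ) : Dg :=
  [((3, i, r + 1), (3, i + 1, 0)), ((3, i + 1, 0), (3, i, 0)),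
    ((3, i, r + 1), (3, i + 1, r + 1)), ((3, i + 1, r + 1), (3, i, 0))]

/-- The constant part of the digraph. -/
def constArcs (n r : ℕ) : Dg :=
  ((List.range r).flatMap fun s => hubArcs r (s + 1)) ++
    ((List.range n).flatMap fun i => pairArcs r i) ++
      (List.range (n - 1)).flatMap fun i => linkArcs r i

/-- The chain `(2, q, 0), ..., (2, q, r)` of the constraint number `q`, closed by the last pair,
and with ends `first`, `last`. -/
def conArcs (n r q : ℕ) (first last : Vx) : Dg :=
  [((3, n - 1, r + 1), (2, q, 0)), ((2, q, 0), (3, n - 1, 0)), (last, (2, q, 0)),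
    ((2, q, r), first)] ++
    (((List.range r).map fun s => ((2, q, s), (2, q, s + 1))) ++
      (List.range r).flatMap fun s => lev r (s + 1) (2, q, s + 1))

/-- The part for the clause number `j` with variables `a, b, c`. -/
def clauseArcs (n r : ℕ) (j a b c : ℕ) : Dg :=
  [((0, a, 0), (1, j, 0)), ((0, b, 0), (1, j, 1)), ((0, c, 0), (1, j, 2)),
    ((1, j, 0), (1, j, 1)), ((1, j, 1), (1, j, 2))] ++
    (conArcs n r (4 * j) (0, a, 0) (1, j, 0) ++ (conArcs n r (4 * j + 1) (0, b, 0) (1, j, 1) ++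
      (conArcs n r (4 * j + 2) (0, c, 0) (1, j, 2) ++
        conArcs n r (4 * j + 3) (1, j, 0) (1, j, 2))))

/-- The digraph for the parameters `n ≥ 1`, `r` (depending on `p`) and the formula `φ`. -/
def lowDg (n r : ℕ) (φ : N3) : Dg :=
  constArcs n r ++ (List.range φ.length).flatMap fun j =>
    clauseArcs n r j (tr φ j).1 (tr φ j).2.1 (tr φ j).2.2

/-- (P) The reduction is polynomial. -/
def SPOLY : Prop := ∀ n r : ℕ, NPC.Poly (lowDg n r)

end Pool.Agent.R539.SD
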