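import Pool.Agent.R539.SD.SndM

/-!
# The case `1 < p < 2`
-/

set_option autoImplicit false

namespace Pool.Agent.R539.SD

open Pool.Agent.NPC Pool.Agent.R544

theorem starNum_le {E : Dg} {k d : ℕ} {c : Vx → ZMod k} (hd : 1 ≤ d) (hdk : d ≤ k)
    (hc : IsCol E k d c) {p : ℝ} (hp : (k : ℝ) ≤ p * d) : starNum E ≤ p := by
  have hd' : (0 : ℝ) < d := by exact_mod_cast hd
  have hb : BddBelow {x : ℝ | ∃ k d : ℕ, 1 ≤ d ∧ d ≤ k ∧ x = (k : ℝ) / (d : ℝ) ∧
      ∃ c : Vx → ZMod k, IsCol E k d c} := by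
    refine ⟨0, ?_⟩
    rintro x ⟨k', d', -, -, rfl, -⟩
    positivity
  exact (csInf_le hb ⟨k, d, hd, hdk, rfl, c, hc⟩).trans ((div_le_iff₀ hd').2 hp)

/-- The parameters. -/
theorem params {p : ℝ} (h1 : 1 < p) (h2 : p < 2) : ∃ n r : ℕ, 1 ≤ n ∧
    ((((r + 2) * n + 1 : ℕ) : ℝ) ≤ p * (((r + 1) * n + 1 : ℕ) : ℝ)) ∧
    p * (((n + 1) * (r + 1) + 1 : ℕ) : ℝ) < (((n + 1) * (r + 2) + 1 : ℕ) : ℝ) := by
  have hp1 : 0 < p - 1 := by linarith
  set P : ℝ := p / (p - 1) with hP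
  have hP2 : 2 < P := by
    rw [hP, lt_div_iff₀ hp1]
    linarith
  have hPe : P * (p - 1) = p := div_mul_cancel₀ _ hp1.ne'
  obtain ⟨r, hr1, hr2⟩ : ∃ r : ℕ, (r : ℝ) + 2 < P ∧ P ≤ r + 3 := by
    have hc : 3 ≤ ⌈P⌉₊ := by
      have : 2 < ⌈P⌉₊ := Nat.lt_ceil.2 (by exact_mod_cast hP2)
      omega
    obtain ⟨r, hr⟩ := Nat.exists_eq_add_of_le hc
    refine ⟨r, ?_, ?_⟩
    · have : r + 2 < ⌈P⌉₊ := by omega
      have := Nat.lt_ceil.1 this
      push_cast at this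
      exact this
    · have := Nat.le_ceil P
      rw [hr] at this
      push_cast at this
      linarith
  have hx : 0 < P - (r + 2) := by linarith
  have hx1 : P - (r + 2) ≤ 1 := by linarith
  set x : ℝ := P - (r + 2) with hxdef
  have hPx : P = r + 2 + x := by rw [hxdef]; ring
  have hn1 : 1 ≤ ⌊1 / x⌋₊ := by
    rw [Nat.one_le_floor_iff, le_div_iff₀ hx]
    linarith
  refine ⟨⌊1 / x⌋₊, r, hn1, ?_, ?_⟩
  · have h3 : (⌊1 / x⌋₊ : ℝ) ≤ 1 / x := Nat.floor_le (by positivity)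
    rw [le_div_iff₀ hx] at h3
    push_cast
    set n : ℝ := (⌊1 / x⌋₊ : ℝ)
    have h4 : P * n ≤ (r + 2) * n + 1 := by
      rw [hPx]
      nlinarith
    have h5 : P * n * (p - 1) ≤ ((r + 2) * n + 1) * (p - 1) :=
      mul_le_mul_of_nonneg_right h4 hp1.le
    have h6 : P * n * (p - 1) = p * n := by rw [mul_right_comm, hPe]
    nlinarith
  · have h3 : 1 / x < (⌊1 / x⌋₊ : ℝ) + 1 := Nat.lt_floor_add_one _
    rw [div_lt_iff₀ hx] at h3
    push_cast
    set n : ℝ := (⌊1 / x⌋₊ : ℝ)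
    have h4 : (n + 1) * (r + 2) + 1 < P * (n + 1) := by
      rw [hPx]
      nlinarith
    have h5 : ((n + 1) * (r + 2) + 1) * (p - 1) < P * (n + 1) * (p - 1) :=
      mul_lt_mul_of_pos_right h4 hp1
    have h6 : P * (n + 1) * (p - 1) = p * (n + 1) := by rw [mul_right_comm, hPe]
    nlinarith

theorem low_hard (hCol : SCOL) (hInf : SINF) (hKey : SKEY) (hCyc : SCYC) (hLoop : SLOOP)
    (hCmp : SCMP) (hPoly : SPOLY) {p : ℝ} (h1 : 1 < p) (h2 : p < 2) : NPHardP (Star p) := by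
  obtain ⟨n, r, hn, ha, hb⟩ := params h1 h2
  refine (hardPr_NAE3.trans (Pr' := fun _ => True) (Q := Star p) (hPoly n r)
    (fun _ _ => trivial) (fun φ _ => ?_)).toHardI.toNPHardP
  constructor
  · intro hφ
    obtain ⟨C, hC, hK⟩ := hCmp n r φ hn hφ
    have e1 : (r + 2) * n + 1 - ((r + 1) * n + 1) = n := by
      have : (r + 2) * n = (r + 1) * n + n := by ring
      omega
    have e2 : (r + 1) * n + 1 ≤ (r + 2) * n + 1 := by nlinarith
    refine ⟨hLoop n r φ, starNum_le (by omega) e2 (hCol _ _ _ C (by omega) e2 hC ?_) ha⟩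
    rw [e1]
    exact hCyc n r φ _ _ C hn hK
  · rintro ⟨hl, hs⟩
    have hq : starNum (lowDg n r φ) <
        (((n + 1) * (r + 2) + 1 : ℕ) : ℝ) / (((n + 1) * (r + 1) + 1 : ℕ) : ℝ) := by
      refine lt_of_le_of_lt hs ?_
      rw [lt_div_iff₀ (by positivity)]
      exact hb
    obtain ⟨k, d, hd, hdk, hkd, c, hc⟩ := hInf _ hl _ hq
    have : NeZero k := ⟨by omega⟩
    have hK := hKey n r φ k d c hn hd hdk hc
    refine snd n r φ k (k - d) _ hn (fun v => ZMod.val_lt _) ?_ hK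
    rw [div_mul_eq_mul_div, lt_div_iff₀ (by positivity)] at hkd
    have h3 : k * ((n + 1) * (r + 1) + 1) < ((n + 1) * (r + 2) + 1) * d := by
      exact_mod_cast hkd
    obtain ⟨e, rfl⟩ := Nat.exists_eq_add_of_le hdk
    rw [Nat.add_sub_cancel_left]
    nlinarith

/-- All real `p > 1` different from `2`. -/
theorem all_hard (hHit : SHIT) (hCol : SCOL) (hInf : SINF) (hKey : SKEY) (hCyc : SCYC)
    (hLoop : SLOOP) (hCmp : SCMP) (hPoly : SPOLY) (hHi : SHI) (hMid : SMID) {p : ℝ} (h1 : 1 < p)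
    (h2 : p ≠ 2) : NPHardP (Star p) := by
  have _ := hHit
  rcases lt_or_gt_of_ne h2 with h | h
  · exact low_hard hCol hInf hKey hCyc hLoop hCmp hPoly h1 h
  · by_cases h3 : p < 3
    · exact hMid p h h3
    · exact hHi p (not_lt.1 h3)

end Pool.Agent.R539.SD
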