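import Pool.Agent.R539.SD.Defs

/-!
# MP_77e9aa_lc: statements of the pieces for membership in NP
-/

set_option autoImplicit false

namespace Pool.Agent.R539.SD

open Pool.Agent.NPC Pool.Agent.R544

/-- The digraph has no loops and an acyclic `(k, d)`-colouring. -/
def HasCol (k d : ℕ) (E : Dg) : Prop := Loopless E ∧ ∃ c : Vx → ZMod k, IsCol E k d c

/-- (A) The infimum is attained for rational values. -/
def SATT : Prop := ∀ (k d : ℕ) (E : Dg), 1 ≤ d → d < k → Star ((k : ℝ) / (d : ℝ)) E → HasCol k d E

/-- (N) Membership in NP. -/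
def SMEM : Prop := ∀ k d : ℕ, 1 ≤ d → d < k → InNPP (HasCol k d)

end Pool.Agent.R539.SD
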