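import Pool.Agent.R539.SD.Stm

/-!
# An assignment from a colouring
-/

set_option autoImplicit false

namespace Pool.Agent.R539.SD

open Pool.Agent.NPC Pool.Agent.R544

theorem Hit.mono {k g : ℕ} {C : Vx → ℕ} {Y Z : Set Vx} (h : Hit k g C Y) (hYZ : Y ⊆ Z) :
    Hit k g C Z := by
  intro y hy
  obtain ⟨v, hv, hw⟩ := h y hy
  exact ⟨v, hYZ hv, hw⟩

/-- Rotation: `y0` becomes `0`. -/
def rot (k y0 a : ℕ) : ℕ := if y0 ≤ a then a - y0 else a + k - y0

theorem rot_lt {k y0 a : ℕ} (hy : y0 < k) (ha : a < k) : rot k y0 a < k := by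
  unfold rot
  split_ifs <;> omega

theorem W_rot {k g y0 y a : ℕ} (hg : g ≤ k) (h0 : y0 < k) (hy : y < k) (ha : a < k) :
    W k g y a ↔ W k g (rot k y0 y) (rot k y0 a) := by
  unfold rot W
  split_ifs <;> omega

theorem rot_surj {k y0 y : ℕ} (h0 : y0 < k) (hy : y < k) : ∃ z < k, rot k y0 z = y := by
  by_cases h : y + y0 < k
  · refine ⟨y + y0, h, ?_⟩
    unfold rot
    split_ifs <;> omega
  · refine ⟨y + y0 - k, by omega, ?_⟩
    unfold rot
    split_ifs <;> omega

/-- The contraction. -/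
theorem contract_hit {k g y0 : ℕ} {C : Vx → ℕ} {Y : Set Vx} {w : Vx} (hk : 2 * g < k)
    (h0 : y0 < k) (hC : ∀ v, C v < k) (hw : W k g y0 (C w)) (h : Hit k g C (Y ∪ {w})) :
    Hit (k - g) g (fun v => rot k y0 (C v) - g) Y := by
  have hw' : rot k y0 (C w) < g := by
    have := hC w
    unfold rot
    unfold W at hw
    split_ifs <;> omega
  have hR : ∀ y < k, ∃ v ∈ Y ∪ {w}, W k g y (rot k y0 (C v)) := by
    intro y hy
    obtain ⟨z, hz, rfl⟩ := rot_surj h0 hy
    obtain ⟨v, hv, hW⟩ := h z hz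
    exact ⟨v, hv, (W_rot (by omega) h0 hz (hC v)).1 hW⟩
  intro y hy
  by_cases hc : 1 ≤ y ∧ y + g ≤ k - g
  · obtain ⟨v, hv, hW⟩ := hR (y + g) (by omega)
    have hlt := rot_lt h0 (hC v)
    rcases hv with hv | hv
    · refine ⟨v, hv, ?_⟩
      unfold W at hW ⊢
      dsimp only
      omega
    · exfalso
      rw [Set.mem_singleton_iff] at hv
      subst hv
      unfold W at hW
      omega
  · obtain ⟨a, ha⟩ : ∃ a, a = if y = 0 then 0 else k - g - y := ⟨_, rfl⟩
    have haa : (y = 0 ∧ a = 0) ∨ (1 ≤ y ∧ a = k - g - y) := by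
      split_ifs at ha <;> omega
    obtain ⟨v, hv, hW⟩ := hR (if a = 0 then 0 else k - a) (by split_ifs <;> omega)
    have hlt := rot_lt h0 (hC v)
    rcases hv with hv | hv
    · refine ⟨v, hv, ?_⟩
      unfold W at hW ⊢
      dsimp only
      split_ifs at hW <;> omega
    · rw [Set.mem_singleton_iff] at hv
      subst hv
      obtain ⟨u, hu, hWu⟩ := hR (g - a) (by omega)
      have hlu := rot_lt h0 (hC u)
      rcases hu with hu | hu
      · refine ⟨u, hu, ?_⟩
        unfold W at hW hWu ⊢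
        dsimp only
        split_ifs at hW <;> omega
      · exfalso
        rw [Set.mem_singleton_iff] at hu
        subst hu
        unfold W at hW hWu
        split_ifs at hW <;> omega

theorem contract_win {k g y0 b a : ℕ} (hk : 2 * g < k) (h0 : y0 < k) (hb : b < k) (ha : a < k)
    (h : W k g b a) : W (k - g) g (rot k y0 b - g) (rot k y0 a - g) := by
  have h1 := (W_rot (k := k) (g := g) (by omega) h0 hb ha).1 h
  have h2 := rot_lt h0 hb
  have h3 := rot_lt h0 ha
  unfold W at h1 ⊢
  omega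

theorem contract_all (g : ℕ) : ∀ (s k : ℕ) (C : Vx → ℕ) (y : ℕ → ℕ), (∀ v, C v < k) →
    (s + 2) * g < k → (∀ t, 1 ≤ t → t ≤ s → y t < k) →
    ∃ C' : Vx → ℕ, (∀ v, C' v < k - s * g) ∧ ∀ (B : Set Vx) (lv : ℕ → Vx),
      (∀ t, 1 ≤ t → t ≤ s → W k g (y t) (C (lv t))) →
      Hit k g C (B ∪ {v | ∃ t, 1 ≤ t ∧ t ≤ s ∧ v = lv t}) → Hit (k - s * g) g C' B := by
  intro s
  induction s with
  | zero =>
    intro k C y hC hk _
    refine ⟨C, by simpa using hC, fun B lv _ h => ?_⟩
    rw [Nat.zero_mul, Nat.sub_zero]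
    refine h.mono ?_
    rintro v (hv | ⟨t, h1, h2, -⟩)
    · exact hv
    · omega
  | succ s ih =>
    intro k C y hC hk hy
    have e1 : (s + 1 + 2) * g = (s + 2) * g + g := by ring
    have e2 : (s + 2) * g = s * g + 2 * g := by ring
    have e3 : (s + 1) * g = s * g + g := by ring
    have h0 : y (s + 1) < k := hy (s + 1) (by omega) le_rfl
    obtain ⟨C', hC', h'⟩ := ih (k - g) (fun v => rot k (y (s + 1)) (C v) - g)
      (fun t => rot k (y (s + 1)) (y t) - g)
      (fun v => by have := rot_lt h0 (hC v); omega) (by omega)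
      (fun t h1 h2 => by have := rot_lt h0 (hy t h1 (by omega)); omega)
    refine ⟨C', fun v => by have := hC' v; omega, fun B lv hl h => ?_⟩
    have e4 : k - (s + 1) * g = k - g - s * g := by omega
    rw [e4]
    refine h' B lv (fun t h1 h2 => ?_) ?_
    · exact contract_win (by omega) h0 (hy t h1 (by omega)) (hC _) (hl t h1 (by omega))
    · refine contract_hit (w := lv (s + 1)) (by omega) h0 hC (hl _ (by omega) le_rfl) (h.mono ?_)
      rintro v (hv | ⟨t, h1, h2, rfl⟩)
      · exact Or.inl (Or.inl hv)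
      · by_cases ht : t ≤ s
        · exact Or.inl (Or.inr ⟨t, h1, ht, rfl⟩)
        · obtain rfl : t = s + 1 := by omega
          exact Or.inr rfl

/-- Every colour lies in at most `g` windows. -/
theorem card_win (k g a : ℕ) : ((Finset.range k).filter (fun y => (y ≤ a ∧ a < y + g) ∨
    a + k < y + g)).card ≤ g := by
  classical
  calc _ ≤ ((Finset.range g).image (fun t => if t ≤ a then a - t else a + k - t)).card := by
        refine Finset.card_le_card fun y hy => ?_
        rw [Finset.mem_filter, Finset.mem_range] at hy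
        rw [Finset.mem_image]
        by_cases h : y ≤ a ∧ a < y + g
        · refine ⟨a - y, by rw [Finset.mem_range]; omega, ?_⟩
          split_ifs <;> omega
        · refine ⟨a + k - y, by rw [Finset.mem_range]; omega, ?_⟩
          split_ifs <;> omega
    _ ≤ _ := Finset.card_image_le.trans (by rw [Finset.card_range])

/-- Few points miss a window. -/
theorem exists_missed {k g m : ℕ} (f : ℕ → ℕ) (h : m * g < k) :
    ∃ y < k, ∀ t < m, ¬ W k g y (f t) := by
  classical
  by_contra hcon
  push Not at hcon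
  have h1 : Finset.range k ⊆ (Finset.range m).biUnion (fun t => (Finset.range k).filter
      (fun y => (y ≤ f t ∧ f t < y + g) ∨ f t + k < y + g)) := by
    intro y hy
    obtain ⟨t, ht, hW⟩ := hcon y (Finset.mem_range.1 hy)
    rw [Finset.mem_biUnion]
    exact ⟨t, Finset.mem_range.2 ht, Finset.mem_filter.2 ⟨hy, hW⟩⟩
  have h2 := Finset.card_le_card h1
  have h3 := (Finset.card_biUnion_le (s := Finset.range m) (t := fun t =>
    (Finset.range k).filter (fun y => (y ≤ f t ∧ f t < y + g) ∨ f t + k < y + g)))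
  have h4 : ∑ t ∈ Finset.range m, ((Finset.range k).filter
      (fun y => (y ≤ f t ∧ f t < y + g) ∨ f t + k < y + g)).card ≤ ∑ t ∈ Finset.range m, g :=
    Finset.sum_le_sum fun t _ => card_win k g (f t)
  rw [Finset.sum_const, Finset.card_range, smul_eq_mul] at h4
  rw [Finset.card_range] at h2
  omega

/-- Circular distance. -/
def cd (k a b : ℕ) : ℕ :=
  if a ≤ b then min (b - a) (k - (b - a)) else min (a - b) (k - (a - b))

theorem tri0 {k g b u : ℕ} (hk : 2 * g < k) (hb : b < k) (hu : u < k)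
    (h : ∀ y < k, W k g y 0 ∨ W k g y b ∨ W k g y u) :
    (1 ≤ b ∧ b ≤ g ∧ k ≤ u + g ∧ u ≤ b + g) ∨ (k ≤ b + g ∧ b ≤ u + g ∧ u ≤ g) := by
  have h1 := h 1 (by
    by_contra hc
    obtain rfl : g = 0 := by omega
    have := h 0 (by omega)
    unfold W at this
    omega)
  have h2 := h (k - g) (by
    by_contra hc
    obtain rfl : g = 0 := by omega
    have := h 0 (by omega)
    unfold W at this
    omega)
  unfold W at h1 h2
  by_cases hbg : b ≤ g
  · have h3 := h (b + 1) (by omega)
    unfold W at h3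
    omega
  · have h3 := h (u + 1) (by omega)
    unfold W at h3
    omega

theorem tri {k g a b u u' : ℕ} (hk : 2 * g < k) (ha : a < k) (hb : b < k) (hu : u < k)
    (hu' : u' < k) (h : ∀ y < k, W k g y a ∨ W k g y b ∨ W k g y u)
    (h' : ∀ y < k, W k g y a ∨ W k g y b ∨ W k g y u') :
    cd k u u' + (k - 2 * g) ≤ cd k a b ∧ cd k a b ≤ g := by
  have hr : ∀ x < k, (∀ y < k, W k g y a ∨ W k g y b ∨ W k g y x) →
      ∀ y < k, W k g y 0 ∨ W k g y (rot k a b) ∨ W k g y (rot k a x) := by
    intro x hx hh y hy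
    obtain ⟨z, hz, rfl⟩ := rot_surj ha hy
    have e : rot k a a = 0 := by unfold rot; simp
    rcases hh z hz with h1 | h1 | h1
    · have := (W_rot (by omega) ha hz ha).1 h1
      rw [e] at this
      exact Or.inl this
    · exact Or.inr (Or.inl ((W_rot (by omega) ha hz hb).1 h1))
    · exact Or.inr (Or.inr ((W_rot (by omega) ha hz hx).1 h1))
  have h1 := tri0 hk (rot_lt ha hb) (rot_lt ha hu) (hr u hu h)
  have h2 := tri0 hk (rot_lt ha hb) (rot_lt ha hu') (hr u' hu' h')
  unfold rot at h1 h2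
  unfold cd
  split_ifs at h1 h2 ⊢ <;> omega

/-- The two classes. -/
theorem classes {k g b : ℕ} (hk : 2 * g < k) (hb : b < k) (ht : cd k 0 b < 2 * (k - 2 * g)) :
    ∃ τ : ℕ → Prop, ∀ x < k, (∀ y < k, W k g y 0 ∨ W k g y b ∨ W k g y x) →
      ∀ S : Set ℕ, (∀ s ∈ S, s < k) → (∀ y < k, W k g y x ∨ ∃ s ∈ S, W k g y s) →
        (∃ s ∈ S, τ s) ∧ ∃ s ∈ S, ¬ τ s := by
  by_cases hbg : b ≤ g
  · refine ⟨fun s => W k g (k - 2 * g) s, fun x hx h3 S hS hH => ?_⟩
    have h0 := tri0 hk hb hx h3
    unfold cd at ht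
    have hb1 : 1 ≤ b ∧ b ≤ g ∧ k ≤ x + g ∧ x ≤ b + g := by omega
    rw [if_pos (Nat.zero_le b)] at ht
    constructor
    · rcases hH (k - 2 * g) (by omega) with h1 | h1
      · exfalso
        unfold W at h1
        omega
      · exact h1
    · rcases hH (if b + g + 1 < k then b + g + 1 else 0) (by split_ifs <;> omega) with h1 | h1
      · exfalso
        unfold W at h1
        split_ifs at h1 <;> omega
      · obtain ⟨s, hs, hW⟩ := h1
        refine ⟨s, hs, ?_⟩
        have := hS s hs
        unfold W at hW ⊢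
        split_ifs at hW <;> omega
  · refine ⟨fun s => W k g (g + 1) s, fun x hx h3 S hS hH => ?_⟩
    have h0 := tri0 hk hb hx h3
    unfold cd at ht
    have hb1 : k ≤ b + g ∧ b ≤ x + g ∧ x ≤ g := by omega
    rw [if_pos (Nat.zero_le b)] at ht
    constructor
    · rcases hH (g + 1) (by omega) with h1 | h1
      · exfalso
        unfold W at h1
        omega
      · exact h1
    · rcases hH (if 2 * g ≤ b then b - 2 * g else b + k - 2 * g) (by split_ifs <;> omega)
        with h1 | h1
      · exfalso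
        unfold W at h1
        split_ifs at h1 <;> omega
      · obtain ⟨s, hs, hW⟩ := h1
        refine ⟨s, hs, ?_⟩
        have := hS s hs
        unfold W at hW ⊢
        split_ifs at hW <;> omega

end Pool.Agent.R539.SD
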