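import Pool.Agent.R539.SD.Snd

/-!
# An assignment from a colouring: the main part
-/

set_option autoImplicit false

namespace Pool.Agent.R539.SD

open Pool.Agent.NPC Pool.Agent.R544

/-- The windows of the levels. -/
theorem exists_levels {n r : ℕ} {φ : N3} {k g : ℕ} {C : Vx → ℕ} (hk : (r + 2) * g < k)
    (h : KeyHit n r φ k g C) : ∃ y : ℕ → ℕ, ∀ t, 1 ≤ t → t ≤ r → y t < k ∧
      (∀ i < n, W k g (y t) (C (3, i, t))) ∧ ∀ q < 4 * φ.length, W k g (y t) (C (2, q, t)) := by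
  have hex : ∀ t, ∃ y, 1 ≤ t → t ≤ r → y < k ∧
      (∀ i < n, W k g y (C (3, i, t))) ∧ ∀ q < 4 * φ.length, W k g y (C (2, q, t)) := by
    intro t
    obtain ⟨y, hy, hm⟩ := exists_missed (fun m => C (4, t, m)) hk
    refine ⟨y, fun h1 h2 => ⟨hy, fun i hi => ?_, fun q hq => ?_⟩⟩
    · obtain ⟨v, hv, hW⟩ := h.hub3 t h1 h2 i hi y hy
      rcases hv with ⟨m, hm1, rfl⟩ | hv
      · exact absurd hW (hm m (by omega))
      · rw [Set.mem_singleton_iff] at hv
        rwa [← hv]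
    · obtain ⟨v, hv, hW⟩ := h.hub2 t h1 h2 q hq y hy
      rcases hv with ⟨m, hm1, rfl⟩ | hv
      · exact absurd hW (hm m (by omega))
      · rw [Set.mem_singleton_iff] at hv
        rwa [← hv]
  choose y hy using hex
  exact ⟨y, fun t h1 h2 => hy t h1 h2⟩

theorem hit3 {k g : ℕ} {C : Vx → ℕ} {a b c : Vx} (h : Hit k g C {a, b, c}) :
    ∀ y < k, W k g y (C a) ∨ W k g y (C b) ∨ W k g y (C c) := by
  intro y hy
  obtain ⟨v, hv, hW⟩ := h y hy
  simp only [Set.mem_insert_iff, Set.mem_singleton_iff] at hv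
  rcases hv with rfl | rfl | rfl
  · exact Or.inl hW
  · exact Or.inr (Or.inl hW)
  · exact Or.inr (Or.inr hW)

/-- The consequences of the hits after the contraction. -/
structure Low (n : ℕ) (r : ℕ) (φ : N3) (k g : ℕ) (D : Vx → ℕ) : Prop where
  lt : ∀ v, D v < k
  link0 : ∀ i, i + 1 < n → Hit k g D {(3, i, 0), (3, i, r + 1), (3, i + 1, 0)}
  link1 : ∀ i, i + 1 < n → Hit k g D {(3, i, 0), (3, i, r + 1), (3, i + 1, r + 1)}
  frame : ∀ q < 4 * φ.length, Hit k g D {(3, n - 1, 0), (3, n - 1, r + 1), (2, q, 0)}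
  con0 : ∀ j < φ.length, Hit k g D {(2, 4 * j, 0), (0, (tr φ j).1, 0), (1, j, 0)}
  con1 : ∀ j < φ.length, Hit k g D {(2, 4 * j + 1, 0), (0, (tr φ j).2.1, 0), (1, j, 1)}
  con2 : ∀ j < φ.length, Hit k g D {(2, 4 * j + 2, 0), (0, (tr φ j).2.2, 0), (1, j, 2)}
  con3 : ∀ j < φ.length, Hit k g D {(2, 4 * j + 3, 0), (1, j, 0), (1, j, 1), (1, j, 2)}

theorem chn_sub {a b m : ℕ} : chn a b m ⊆ {(a, b, 0)} ∪
    {v | ∃ t, 1 ≤ t ∧ t ≤ m ∧ v = (a, b, t)} := by
  rintro v ⟨t, ht, rfl⟩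
  by_cases h0 : t = 0
  · subst h0
    exact Or.inl rfl
  · exact Or.inr ⟨t, by omega, ht, rfl⟩

theorem chn_sub' {a b m : ℕ} : chn a b (m + 1) ⊆ {(a, b, 0), (a, b, m + 1)} ∪
    {v | ∃ t, 1 ≤ t ∧ t ≤ m ∧ v = (a, b, t)} := by
  rintro v ⟨t, ht, rfl⟩
  by_cases h0 : t = 0
  · subst h0
    exact Or.inl (Or.inl rfl)
  · by_cases h1 : t ≤ m
    · exact Or.inr ⟨t, by omega, h1, rfl⟩
    · obtain rfl : t = m + 1 := by omega
      exact Or.inl (Or.inr rfl)

theorem exists_low {n r : ℕ} {φ : N3} {k g : ℕ} {C : Vx → ℕ} (hn : 1 ≤ n) (hC : ∀ v, C v < k)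
    (hk : (r + 2) * g < k) (h : KeyHit n r φ k g C) : ∃ D, Low n r φ (k - r * g) g D := by
  obtain ⟨y, hy⟩ := exists_levels hk h
  obtain ⟨D, hD, hB⟩ := contract_all g r k C y hC hk (fun t h1 h2 => (hy t h1 h2).1)
  have key3 : ∀ i < n, ∀ B : Set Vx, Hit k g C (chn 3 i (r + 1) ∪ B) →
      Hit (k - r * g) g D ({(3, i, 0), (3, i, r + 1)} ∪ B) := by
    intro i hi B hH
    refine hB _ (fun t => (3, i, t)) (fun t h1 h2 => (hy t h1 h2).2.1 i hi) (hH.mono ?_)
    rintro v (hv | hv)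
    · rcases chn_sub' hv with h1 | h1
      · exact Or.inl (Or.inl h1)
      · exact Or.inr h1
    · exact Or.inl (Or.inr hv)
  have key2 : ∀ q < 4 * φ.length, ∀ B : Set Vx, Hit k g C (chn 2 q r ∪ B) →
      Hit (k - r * g) g D ({(2, q, 0)} ∪ B) := by
    intro q hq B hH
    refine hB _ (fun t => (2, q, t)) (fun t h1 h2 => (hy t h1 h2).2.2 q hq) (hH.mono ?_)
    rintro v (hv | hv)
    · rcases chn_sub hv with h1 | h1
      · exact Or.inl (Or.inl h1)
      · exact Or.inr h1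
    · exact Or.inl (Or.inr hv)
  have s3 : ∀ {a b c : Vx}, ({a, b} ∪ {c} : Set Vx) ⊆ {a, b, c} := by
    rintro a b c v ((rfl | hv) | hv)
    · exact Or.inl rfl
    · exact Or.inr (Or.inl hv)
    · exact Or.inr (Or.inr hv)
  have s4 : ∀ {a : Vx} {B : Set Vx}, ({a} ∪ B : Set Vx) ⊆ insert a B := by
    rintro a B v (hv | hv)
    · exact Or.inl hv
    · exact Or.inr hv
  refine ⟨D, hD, ?_, ?_, ?_, ?_, ?_, ?_, ?_⟩
  · intro i hi
    exact (key3 i (by omega) _ (h.link0 i hi)).mono s3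
  · intro i hi
    exact (key3 i (by omega) _ (h.link1 i hi)).mono s3
  · intro q hq
    exact (key3 (n - 1) (by omega) _ (h.frame q hq)).mono s3
  · intro j hj
    exact (key2 _ (by omega) _ (h.con0 j hj)).mono s4
  · intro j hj
    exact (key2 _ (by omega) _ (h.con1 j hj)).mono s4
  · intro j hj
    exact (key2 _ (by omega) _ (h.con2 j hj)).mono s4
  · intro j hj
    exact (key2 _ (by omega) _ (h.con3 j hj)).mono s4

theorem low_nae {n r : ℕ} {φ : N3} {k g : ℕ} {D : Vx → ℕ} (hn : 1 ≤ n)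
    (hk : (2 * n + 3) * g < (n + 1) * k) (h : Low n r φ k g D) : NAE3 φ := by
  classical
  rw [nae3_iff]
  by_cases hφ : φ.length = 0
  · exact ⟨fun _ => true, fun j hj => by omega⟩
  have hkg : 2 * g < k := by nlinarith
  obtain ⟨e, he⟩ : ∃ e, k = 2 * g + e := ⟨k - 2 * g, by omega⟩
  -- the distances of the pairs
  have hstep : ∀ i, i + 1 < n → cd k (D (3, i + 1, 0)) (D (3, i + 1, r + 1)) + (k - 2 * g) ≤
      cd k (D (3, i, 0)) (D (3, i, r + 1)) ∧ cd k (D (3, i, 0)) (D (3, i, r + 1)) ≤ g :=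
    fun i hi => tri hkg (h.lt _) (h.lt _) (h.lt _) (h.lt _) (hit3 (h.link0 i hi))
      (hit3 (h.link1 i hi))
  have hfin : cd k (D (3, n - 1, 0)) (D (3, n - 1, r + 1)) ≤ g :=
    (tri hkg (h.lt _) (h.lt _) (h.lt _) (h.lt _) (hit3 (h.frame 0 (by omega)))
      (hit3 (h.frame 0 (by omega)))).2
  have hall : ∀ i < n, cd k (D (3, i, 0)) (D (3, i, r + 1)) + i * e ≤ g := by
    intro i
    induction i with
    | zero =>
      intro _
      rw [Nat.zero_mul, Nat.add_zero]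
      by_cases h1 : 1 < n
      · exact (hstep 0 h1).2
      · have : n - 1 = 0 := by omega
        rw [this] at hfin
        exact hfin
    | succ i ih =>
      intro hi
      have h1 := ih (by omega)
      have h2 := (hstep i hi).1
      have h3 : (i + 1) * e = i * e + e := by ring
      omega
  have hlast := hall (n - 1) (by omega)
  obtain ⟨m, rfl⟩ : ∃ m, n = m + 1 := ⟨n - 1, by omega⟩
  rw [Nat.add_sub_cancel] at hlast hfin
  have hsmall : cd k (D (3, m, 0)) (D (3, m, r + 1)) < 2 * (k - 2 * g) := by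
    have h1 : k - 2 * g = e := by omega
    rw [h1]
    subst he
    nlinarith
  have ha := h.lt (3, m, 0)
  have hcd : cd k 0 (rot k (D (3, m, 0)) (D (3, m, r + 1))) < 2 * (k - 2 * g) := by
    have hb := h.lt (3, m, r + 1)
    unfold cd at hsmall ⊢
    unfold rot
    split_ifs at hsmall ⊢ <;> omega
  obtain ⟨τ, hτ⟩ := classes hkg (rot_lt ha (h.lt (3, m, r + 1))) hcd
  -- transfer of hits
  have tr1 : ∀ q < 4 * φ.length, ∀ B : Set Vx, Hit k g D (insert (2, q, 0) B) →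
      (∃ v ∈ B, τ (rot k (D (3, m, 0)) (D v))) ∧ ∃ v ∈ B, ¬ τ (rot k (D (3, m, 0)) (D v)) := by
    intro q hq B hH
    have h3 : ∀ y < k, W k g y 0 ∨ W k g y (rot k (D (3, m, 0)) (D (3, m, r + 1))) ∨
        W k g y (rot k (D (3, m, 0)) (D (2, q, 0))) := by
      intro y hy
      obtain ⟨z, hz, rfl⟩ := rot_surj ha hy
      have e0 : rot k (D (3, m, 0)) (D (3, m, 0)) = 0 := by unfold rot; simp
      have hf := h.frame q hq
      rw [Nat.add_sub_cancel] at hf
      rcases hit3 hf z hz with h1 | h1 | h1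
      · have := (W_rot (by omega) ha hz ha).1 h1
        rw [e0] at this
        exact Or.inl this
      · exact Or.inr (Or.inl ((W_rot (by omega) ha hz (h.lt _)).1 h1))
      · exact Or.inr (Or.inr ((W_rot (by omega) ha hz (h.lt _)).1 h1))
    obtain ⟨⟨s, hs, h1⟩, s', hs', h2⟩ := hτ _ (rot_lt ha (h.lt (2, q, 0))) h3
      ((fun v => rot k (D (3, m, 0)) (D v)) '' B)
      (by rintro s ⟨v, _, rfl⟩; exact rot_lt ha (h.lt v))
      (by
        intro y hy
        obtain ⟨z, hz, rfl⟩ := rot_surj ha hy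
        obtain ⟨v, hv, hW⟩ := hH z hz
        have hW' := (W_rot (by omega) ha hz (h.lt v)).1 hW
        rcases hv with rfl | hv
        · exact Or.inl hW'
        · exact Or.inr ⟨_, ⟨v, hv, rfl⟩, hW'⟩)
    obtain ⟨v, hv, rfl⟩ := hs
    obtain ⟨v', hv', rfl⟩ := hs'
    exact ⟨⟨v, hv, h1⟩, v', hv', h2⟩
  have pair : ∀ q < 4 * φ.length, ∀ a b : Vx, Hit k g D {(2, q, 0), a, b} →
      (τ (rot k (D (3, m, 0)) (D b)) ↔ ¬ τ (rot k (D (3, m, 0)) (D a))) := by
    intro q hq a b hH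
    obtain ⟨⟨v, hv, h1⟩, v', hv', h2⟩ := tr1 q hq {a, b} hH
    simp only [Set.mem_insert_iff, Set.mem_singleton_iff] at hv hv'
    rcases hv with rfl | rfl <;> rcases hv' with rfl | rfl <;> tauto
  refine ⟨fun v => decide (τ (rot k (D (3, m, 0)) (D (0, v, 0)))), fun j hj => ?_⟩
  have p0 := pair (4 * j) (by omega) _ _ (h.con0 j hj)
  have p1 := pair (4 * j + 1) (by omega) _ _ (h.con1 j hj)
  have p2 := pair (4 * j + 2) (by omega) _ _ (h.con2 j hj)
  obtain ⟨⟨v, hv, h1⟩, v', hv', h2⟩ := tr1 (4 * j + 3) (by omega) _ (h.con3 j hj)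
  simp only [Set.mem_insert_iff, Set.mem_singleton_iff] at hv hv'
  rintro ⟨e1, e2⟩
  rw [decide_eq_decide] at e1 e2
  rcases hv with rfl | rfl | rfl <;> rcases hv' with rfl | rfl | rfl <;> tauto

theorem snd : SSND := by
  intro n r φ k g C hn hC hk h
  have h1 : (r + 2) * g < k := by
    by_contra hc
    push Not at hc
    have : (n + 1) * k ≤ (n + 1) * ((r + 2) * g) := Nat.mul_le_mul_left _ hc
    nlinarith
  obtain ⟨D, hD⟩ := exists_low hn hC h1 h
  refine low_nae hn ?_ hD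
  obtain ⟨e, he⟩ : ∃ e, k = r * g + e := ⟨k - r * g, by nlinarith [Nat.sub_add_cancel (show r * g ≤ k by nlinarith)]⟩
  have h2 : k - r * g = e := by omega
  rw [h2]
  subst he
  nlinarith

end Pool.Agent.R539.SD
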